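import Pool.Agent.helper37.MA.Spec

set_option autoImplicit false

namespace Pool.Agent.helper37.MA

open Finset Pool.Agent.NK Pool.Agent.helper37.NF

theorem CB1 (h1 : AVG_stmt) (h2 : UNI_stmt) (h3 : SYM_stmt) : CB1_stmt := by
  intro a b t i hi hia hab hit htn
  by_cases hb : b < t - i
  · have : ff a b t i = 0 := by
      unfold ff
      rw [Nat.choose_eq_zero_of_lt hb, Nat.mul_zero]
    rw [this, Nat.zero_mul]
    exact Nat.zero_le _
  · have hsym := h3 a b t i hit hia.le (by omega)
    have hC : 0 < (2 * a).choose a := Nat.choose_pos (by omega)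
    have hCR : (0 : ℝ) < ((2 * a).choose a : ℝ) := by exact_mod_cast hC
    have hN : 0 < (a + b).choose a := Nat.choose_pos (by omega)
    have hNR : (0 : ℝ) < ((a + b).choose a : ℝ) := by exact_mod_cast hN
    obtain ⟨κ, hκ⟩ : ∃ κ : ℝ, κ = ((2 * i).choose i : ℝ) * ((2 * (a - i)).choose (a - i) : ℝ) / ((2 * a).choose a : ℝ) := ⟨_, rfl⟩
    have hκC : κ * ((2 * a).choose a : ℝ) = ((2 * i).choose i : ℝ) * ((2 * (a - i)).choose (a - i) : ℝ) := by
      rw [hκ, div_mul_cancel₀ _ hCR.ne']
    have hia' : i + (a - i) = a := by omega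
    have hbase : ∀ a' b' : ℕ, a' + b' = 2 * a →
        (a'.choose i : ℝ) * (b'.choose (a - i) : ℝ) ≤ κ * ((2 * a).choose (i + (a - i)) : ℝ) := by
      intro a' b' hab'
      have hu := h2 a' b' i (a - i) hi (by omega) (by omega)
      rw [hia', hab'] at hu
      have hdiv : i * (2 * a + 1) / a = 2 * i := by
        have e : i * (2 * a + 1) = i + a * (2 * i) := by ring
        rw [e, Nat.add_mul_div_left _ _ (by omega : 0 < a), Nat.div_eq_of_lt hia, Nat.zero_add]
      rw [hdiv, show 2 * a - 2 * i = 2 * (a - i) by omega] at hu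
      rw [hia', hκC]
      exact_mod_cast hu
    have hav := h1 i (a - i) (2 * a) κ hi (by omega) (by omega) hbase t (a + b - t) (by omega)
    rw [hia', show t + (a + b - t) = a + b by omega] at hav
    have hsymR : (ff a b t i : ℝ) * ((a + b).choose a : ℝ) =
        (t.choose i : ℝ) * ((a + b - t).choose (a - i) : ℝ) * ((a + b).choose t : ℝ) := by
      exact_mod_cast hsym
    have hT : (0 : ℝ) ≤ ((a + b).choose t : ℝ) := Nat.cast_nonneg _
    have h4 : (ff a b t i : ℝ) * ((a + b).choose a : ℝ) ≤ (κ * ((a + b).choose t : ℝ)) * ((a + b).choose a : ℝ) := by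
      rw [hsymR]
      calc (t.choose i : ℝ) * ((a + b - t).choose (a - i) : ℝ) * ((a + b).choose t : ℝ)
          ≤ (κ * ((a + b).choose a : ℝ)) * ((a + b).choose t : ℝ) := mul_le_mul_of_nonneg_right hav hT
        _ = _ := by ring
    have h5 : (ff a b t i : ℝ) ≤ κ * ((a + b).choose t : ℝ) := le_of_mul_le_mul_right h4 hNR
    have h6 : (ff a b t i : ℝ) * ((2 * a).choose a : ℝ) ≤
        ((2 * i).choose i : ℝ) * ((2 * (a - i)).choose (a - i) : ℝ) * ((a + b).choose t : ℝ) := by
      calc (ff a b t i : ℝ) * ((2 * a).choose a : ℝ) ≤ (κ * ((a + b).choose t : ℝ)) * ((2 * a).choose a : ℝ) :=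
            mul_le_mul_of_nonneg_right h5 hCR.le
        _ = (κ * ((2 * a).choose a : ℝ)) * ((a + b).choose t : ℝ) := by ring
        _ = _ := by rw [hκC]
    exact_mod_cast h6

end Pool.Agent.helper37.MA
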